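import Mathlib

set_option autoImplicit false

/-! Character sums over the `k`-subsets of a `2k`-set. -/

namespace Pool.Agent.V11322.EJ

open Finset

/-- the `k`-subsets of a set of `2k` points -/
abbrev VV (k : ℕ) := {A : Finset (Fin (2 * k)) // A.card = k}

/-- sign of a point -/
def sp {k : ℕ} (Z : VV k) (v : Fin (2 * k)) : ℚ := if v ∈ Z.1 then -1 else 1

lemma sp_sq {k : ℕ} (Z : VV k) (v : Fin (2 * k)) : sp Z v * sp Z v = 1 := by
  unfold sp
  split_ifs <;> norm_num

/-- the character -/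
def chi {k : ℕ} (W : Finset (Fin (2 * k))) (Z : VV k) : ℚ := ∏ v ∈ W, sp Z v

lemma chi_eq {k : ℕ} (W : Finset (Fin (2 * k))) (Z : VV k) :
    chi W Z = (-1) ^ (W ∩ Z.1).card := by
  unfold chi sp
  rw [prod_ite, prod_const, prod_const_one, mul_one, filter_mem_eq_inter]

/-- the character sum -/
def hs (k : ℕ) (W : Finset (Fin (2 * k))) : ℚ := ∑ Z : VV k, chi W Z

/-- permutations act on the vertices -/
def pV {k : ℕ} (σ : Equiv.Perm (Fin (2 * k))) : VV k ≃ VV k where
  toFun Z := ⟨Z.1.map σ.toEmbedding, by rw [card_map, Z.2]⟩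
  invFun Z := ⟨Z.1.map σ.symm.toEmbedding, by rw [card_map, Z.2]⟩
  left_inv Z := by
    apply Subtype.ext
    simp only [map_map]
    ext v
    simp
  right_inv Z := by
    apply Subtype.ext
    simp only [map_map]
    ext v
    simp

lemma exists_perm {k : ℕ} {W W' : Finset (Fin (2 * k))} (h : W.card = W'.card) :
    ∃ σ : Equiv.Perm (Fin (2 * k)), W.map σ.toEmbedding = W' := by
  classical
  let e : {x // x ∈ W} ≃ {x // x ∈ W'} := Finset.equivOfCardEq h
  refine ⟨e.extendSubtype, ?_⟩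
  apply eq_of_subset_of_card_le
  · intro v hv
    rw [mem_map] at hv
    obtain ⟨w, hw, rfl⟩ := hv
    exact e.extendSubtype_mem w hw
  · rw [card_map, h]

lemma hs_perm {k : ℕ} (σ : Equiv.Perm (Fin (2 * k))) (W : Finset (Fin (2 * k))) :
    hs k (W.map σ.toEmbedding) = hs k W := by
  unfold hs
  rw [← Equiv.sum_comp (pV σ)]
  refine sum_congr rfl fun Z _ => ?_
  rw [chi_eq, chi_eq]
  change (-1 : ℚ) ^ (W.map σ.toEmbedding ∩ Z.1.map σ.toEmbedding).card = _
  rw [← map_inter, card_map]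

lemma hs_card {k : ℕ} {W W' : Finset (Fin (2 * k))} (h : W.card = W'.card) :
    hs k W = hs k W' := by
  obtain ⟨σ, rfl⟩ := exists_perm h
  exact (hs_perm σ W).symm

lemma hs_empty (k : ℕ) : hs k ∅ = Fintype.card (VV k) := by
  unfold hs chi
  simp

lemma chi_insert {k : ℕ} {W : Finset (Fin (2 * k))} {v : Fin (2 * k)} (h : v ∉ W) (Z : VV k) :
    chi (insert v W) Z = chi W Z * sp Z v := by
  unfold chi
  rw [prod_insert h, mul_comm]

lemma chi_erase {k : ℕ} {W : Finset (Fin (2 * k))} {v : Fin (2 * k)} (h : v ∈ W) (Z : VV k) :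
    chi (W.erase v) Z = chi W Z * sp Z v := by
  have h1 := chi_insert (notMem_erase v W) Z
  rw [insert_erase h] at h1
  rw [h1, mul_assoc, sp_sq, mul_one]

lemma sp_sum {k : ℕ} (Z : VV k) : ∑ v, sp Z v = 0 := by
  have h1 : ∀ v, sp Z v = 1 - 2 * (if v ∈ Z.1 then 1 else 0) := by
    intro v
    unfold sp
    split_ifs <;> norm_num
  simp_rw [h1]
  rw [sum_sub_distrib, ← mul_sum, sum_boole]
  have h2 : (univ.filter fun v => v ∈ Z.1) = Z.1 := by
    ext v
    simp
  rw [h2, Z.2]
  simp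

lemma rel1 {k : ℕ} (W : Finset (Fin (2 * k))) :
    ∑ v, (if v ∈ W then hs k (W.erase v) else hs k (insert v W)) = 0 := by
  have h1 : ∀ v, (if v ∈ W then hs k (W.erase v) else hs k (insert v W))
      = ∑ Z : VV k, chi W Z * sp Z v := by
    intro v
    unfold hs
    split_ifs with h
    · exact sum_congr rfl fun Z _ => chi_erase h Z
    · exact sum_congr rfl fun Z _ => chi_insert h Z
  simp_rw [h1]
  rw [sum_comm]
  refine sum_eq_zero fun Z _ => ?_
  rw [← mul_sum, sp_sum, mul_zero]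

lemma rel2 {k : ℕ} {W1 W2 : Finset (Fin (2 * k))} (h : W2.card = W1.card + 2) :
    ((W1.card : ℚ) + 1) * hs k W1 + (2 * k - W1.card - 1) * hs k W2 = 0 := by
  obtain ⟨w, hw⟩ : W2.Nonempty := by
    rw [← card_pos]
    omega
  have hW : (W2.erase w).card = W1.card + 1 := by
    rw [card_erase_of_mem hw]
    omega
  have h1 := rel1 (W2.erase w)
  set W := W2.erase w with hWdef
  have h2 : ∀ v, (if v ∈ W then hs k (W.erase v) else hs k (insert v W))
      = if v ∈ W then hs k W1 else hs k W2 := by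
    intro v
    split_ifs with hv
    · apply hs_card
      rw [card_erase_of_mem hv]
      omega
    · apply hs_card
      rw [card_insert_of_notMem hv]
      omega
  simp_rw [h2] at h1
  rw [sum_ite, sum_const, sum_const, filter_mem_eq_inter, univ_inter] at h1
  have h3 : (univ.filter fun v => v ∉ W).card = 2 * k - (W1.card + 1) := by
    have h4 : (univ.filter fun v => v ∉ W) = Wᶜ := by
      ext v
      simp
    rw [h4, card_compl, hW, Fintype.card_fin]
  rw [h3, hW, nsmul_eq_mul, nsmul_eq_mul, Nat.cast_sub] at h1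
  · push_cast at h1
    linarith
  · have := card_le_univ W
    rw [Fintype.card_fin, hW] at this
    exact this

lemma chi_mul {k : ℕ} (X Y : Finset (Fin (2 * k))) (Z : VV k) :
    chi X Z * chi Y Z = chi (symmDiff X Y) Z := by
  classical
  have h1 : ∀ W : Finset (Fin (2 * k)), chi W Z = ∏ v, if v ∈ W then sp Z v else 1 := by
    intro W
    unfold chi
    rw [prod_ite, prod_const_one, mul_one, filter_mem_eq_inter, univ_inter]
  rw [h1, h1, h1, ← prod_mul_distrib]
  refine prod_congr rfl fun v _ => ?_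
  by_cases hX : v ∈ X <;> by_cases hY : v ∈ Y <;>
    simp [hX, hY, mem_symmDiff, sp_sq]

lemma hs_compl {k : ℕ} (W : Finset (Fin (2 * k))) : hs k Wᶜ = (-1) ^ k * hs k W := by
  unfold hs
  rw [mul_sum]
  refine sum_congr rfl fun Z _ => ?_
  rw [chi_eq, chi_eq]
  have h1 : (Wᶜ ∩ Z.1).card + (W ∩ Z.1).card = k := by
    have h3 := card_inter_add_card_sdiff Z.1 W
    have h4 : Wᶜ ∩ Z.1 = Z.1 \ W := by
      ext v
      simp only [mem_inter, mem_compl, mem_sdiff]
      tauto
    have h5 := Z.2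
    rw [h4, inter_comm W]
    omega
  have h2 : ((-1 : ℚ) ^ (W ∩ Z.1).card) * ((-1) ^ (W ∩ Z.1).card) = 1 := by
    rw [← pow_add, ← two_mul, pow_mul]
    norm_num
  calc ((-1 : ℚ)) ^ (Wᶜ ∩ Z.1).card
      = (-1) ^ (Wᶜ ∩ Z.1).card * (((-1 : ℚ) ^ (W ∩ Z.1).card) * ((-1) ^ (W ∩ Z.1).card)) := by
        rw [h2, mul_one]
    _ = (-1) ^ ((Wᶜ ∩ Z.1).card + (W ∩ Z.1).card) * (-1) ^ (W ∩ Z.1).card := by
        rw [pow_add, mul_assoc]
    _ = _ := by rw [h1]

end Pool.Agent.V11322.EJ
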