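import Mathlib

set_option autoImplicit false

/-! Godsil-McKay switching with respect to several cells of size four. -/

namespace Pool.Agent.V11322.EJ

open Finset Matrix

variable {V ι : Type*} [Fintype V] [DecidableEq V] [Fintype ι] [DecidableEq ι]

/-- indicator of a cell -/
def ind (m : V → Option ι) (i : ι) (X : V) : ℚ := if m X = some i then 1 else 0

/-- sign: minus one on the cells -/
def sg (m : V → Option ι) (X : V) : ℚ := if m X = none then 1 else -1

/-- the switching matrix -/
def Q (m : V → Option ι) : Matrix V V ℚ :=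
  Matrix.of fun X Y => (if X = Y then sg m X else 0) + (1 / 2) * ∑ i, ind m i X * ind m i Y

lemma Q_symm (m : V → Option ι) (X Y : V) : Q m X Y = Q m Y X := by
  simp only [Q, Matrix.of_apply]
  congr 1
  · by_cases h : X = Y
    · rw [h]
    · rw [if_neg h, if_neg (Ne.symm h)]
  · congr 1
    exact sum_congr rfl fun i _ => mul_comm _ _

lemma ind_mul (m : V → Option ι) (i j : ι) (X : V) :
    ind m i X * ind m j X = if i = j then ind m i X else 0 := by
  unfold ind
  by_cases h : i = j
  · subst h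
    rw [if_pos rfl]
    split_ifs <;> simp
  · rw [if_neg h]
    by_cases h1 : m X = some i
    · have : m X ≠ some j := by
        rw [h1]
        simpa using h
      rw [if_neg this, mul_zero]
    · rw [if_neg h1, zero_mul]

lemma sg_mul_ind (m : V → Option ι) (i : ι) (X : V) : sg m X * ind m i X = - ind m i X := by
  unfold sg ind
  by_cases h : m X = none
  · simp [h]
  · rw [if_neg h]
    ring

/-- right multiplication with the switching matrix -/
lemma mul_Q (m : V → Option ι) (B : Matrix V V ℚ) (X Y : V) :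
    (B * Q m) X Y = B X Y * sg m Y
      + (1 / 2) * ∑ i, (∑ Z, B X Z * ind m i Z) * ind m i Y := by
  rw [Matrix.mul_apply]
  simp only [Q, Matrix.of_apply, mul_add, sum_add_distrib]
  congr 1
  · rw [sum_eq_single Y]
    · simp
    · intro Z _ hZ
      simp [hZ]
    · simp
  · simp_rw [mul_sum, sum_mul, mul_sum]
    rw [sum_comm]
    exact sum_congr rfl fun i _ => sum_congr rfl fun Z _ => by ring

/-- left multiplication with the switching matrix -/
lemma Q_mul (m : V → Option ι) (B : Matrix V V ℚ) (X Y : V) :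
    (Q m * B) X Y = sg m X * B X Y
      + (1 / 2) * ∑ i, ind m i X * (∑ Z, ind m i Z * B Z Y) := by
  rw [Matrix.mul_apply]
  simp only [Q, Matrix.of_apply, add_mul, sum_add_distrib]
  congr 1
  · rw [sum_eq_single X]
    · simp
    · intro Z _ hZ
      simp [Ne.symm hZ]
    · simp
  · simp_rw [mul_sum, sum_mul]
    rw [sum_comm]
    exact sum_congr rfl fun i _ => sum_congr rfl fun Z _ => by ring

lemma Q_sq (m : V → Option ι) (h4 : ∀ i, ∑ X, ind m i X = 4) : Q m * Q m = 1 := by
  ext X Y
  rw [Q_mul, Matrix.one_apply]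
  have h1 : ∀ i, ∑ Z, ind m i Z * Q m Z Y = ind m i Y := by
    intro i
    have h2 : ∀ Z, ind m i Z * Q m Z Y
        = (if Z = Y then ind m i Z * sg m Z else 0) + (1 / 2) * (ind m i Z * ind m i Y) := by
      intro Z
      simp only [Q, Matrix.of_apply, mul_add]
      congr 1
      · split_ifs <;> simp
      · rw [mul_left_comm, mul_sum]
        congr 1
        rw [sum_eq_single i]
        · rw [← mul_assoc, ind_mul, if_pos rfl]
        · intro j _ hj
          rw [← mul_assoc, ind_mul, if_neg (Ne.symm hj), zero_mul]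
        · simp
    simp_rw [h2]
    rw [sum_add_distrib, sum_ite_eq' univ Y, if_pos (mem_univ _), ← mul_sum, ← sum_mul, h4,
      mul_comm (ind m i Y), sg_mul_ind]
    ring
  simp_rw [h1]
  simp only [Q, Matrix.of_apply, mul_add]
  have h5 : sg m X * (1 / 2 * ∑ i, ind m i X * ind m i Y)
      = - (1 / 2 * ∑ i, ind m i X * ind m i Y) := by
    rw [mul_left_comm, mul_sum, ← mul_neg, ← sum_neg_distrib]
    congr 1
    exact sum_congr rfl fun i _ => by rw [← mul_assoc, sg_mul_ind, neg_mul]
  rw [h5]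
  by_cases h : X = Y
  · rw [if_pos h, if_pos h]
    have : sg m X * sg m X = 1 := by
      unfold sg
      split_ifs <;> norm_num
    rw [this]
    ring
  · rw [if_neg h, if_neg h]
    ring

/-- number of neighbours in a cell -/
def cs (m : V → Option ι) (A : Matrix V V ℚ) (i : ι) (Y : V) : ℚ := ∑ Z, ind m i Z * A Z Y

lemma cs_symm (m : V → Option ι) {A : Matrix V V ℚ} (hA : ∀ X Y, A X Y = A Y X) (i : ι) (Y : V) :
    ∑ Z, A Y Z * ind m i Z = cs m A i Y := by
  unfold cs
  exact sum_congr rfl fun Z _ => by rw [hA Y Z, mul_comm]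

lemma QAQ_apply (m : V → Option ι) {A : Matrix V V ℚ} (hA : ∀ X Y, A X Y = A Y X) (X Y : V) :
    (Q m * A * Q m) X Y = (sg m X * A X Y + (1 / 2) * ∑ i, ind m i X * cs m A i Y) * sg m Y
      + (1 / 2) * ∑ j, (sg m X * cs m A j X
        + (1 / 2) * ∑ i, ind m i X * ∑ Z, ind m i Z * cs m A j Z) * ind m j Y := by
  rw [mul_Q]
  congr 1
  · rw [Q_mul]
    rfl
  · congr 1
    refine sum_congr rfl fun j _ => ?_
    congr 1
    simp_rw [Q_mul, add_mul, sum_add_distrib]
    congr 1
    · simp_rw [mul_assoc]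
      rw [← mul_sum, cs_symm m hA]
    · simp_rw [mul_assoc, ← mul_sum, sum_mul]
      congr 1
      rw [sum_comm]
      refine sum_congr rfl fun i _ => ?_
      simp_rw [mul_assoc, ← mul_sum, sum_mul]
      congr 1
      rw [sum_comm]
      refine sum_congr rfl fun Z _ => ?_
      simp_rw [mul_assoc, ← mul_sum]
      rw [cs_symm m hA]

lemma ind_sum {m : V → Option ι} {X : V} {i : ι} (h : m X = some i) (f : ι → ℚ) :
    ∑ j, ind m j X * f j = f i := by
  rw [sum_eq_single i]
  · simp [ind, h]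
  · intro j _ hj
    simp [ind, h, Ne.symm hj]
  · simp

lemma ind_sum_none {m : V → Option ι} {X : V} (h : m X = none) (f : ι → ℚ) :
    ∑ j, ind m j X * f j = 0 :=
  sum_eq_zero fun j _ => by simp [ind, h]

lemma QAQ_nn (m : V → Option ι) {A : Matrix V V ℚ} (hA : ∀ X Y, A X Y = A Y X) {X Y : V}
    (hX : m X = none) (hY : m Y = none) : (Q m * A * Q m) X Y = A X Y := by
  rw [QAQ_apply m hA, ind_sum_none hX]
  simp_rw [mul_comm _ (ind m _ Y)]
  rw [ind_sum_none hY]
  simp [sg, hX, hY]

lemma QAQ_sn (m : V → Option ι) {A : Matrix V V ℚ} (hA : ∀ X Y, A X Y = A Y X) {X Y : V} {i : ι}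
    (hX : m X = some i) (hY : m Y = none) :
    (Q m * A * Q m) X Y = (1 / 2) * cs m A i Y - A X Y := by
  rw [QAQ_apply m hA, ind_sum hX]
  simp_rw [mul_comm _ (ind m _ Y)]
  rw [ind_sum_none hY]
  simp only [sg, hX, hY, if_true, reduceCtorEq, if_false]
  ring

lemma QAQ_symm (m : V → Option ι) {A : Matrix V V ℚ} (hA : ∀ X Y, A X Y = A Y X) (X Y : V) :
    (Q m * A * Q m) X Y = (Q m * A * Q m) Y X := by
  have h1 : (Q m)ᵀ = Q m := by
    ext X Y
    exact Q_symm m Y X
  have h2 : Aᵀ = A := by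
    ext X Y
    exact hA Y X
  have h3 : (Q m * A * Q m)ᵀ = Q m * A * Q m := by
    rw [Matrix.transpose_mul, Matrix.transpose_mul, h1, h2, Matrix.mul_assoc]
  rw [← Matrix.transpose_apply (Q m * A * Q m) X Y, h3]

lemma QAQ_ns (m : V → Option ι) {A : Matrix V V ℚ} (hA : ∀ X Y, A X Y = A Y X) {X Y : V} {j : ι}
    (hX : m X = none) (hY : m Y = some j) :
    (Q m * A * Q m) X Y = (1 / 2) * cs m A j X - A X Y := by
  rw [QAQ_symm m hA, QAQ_sn m hA hY hX, hA X Y]

lemma QAQ_ss (m : V → Option ι) (h4 : ∀ i, ∑ X, ind m i X = 4)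
    {A : Matrix V V ℚ} (hA : ∀ X Y, A X Y = A Y X) (d : ι → ι → ℚ) (hd : ∀ i j, d i j = d j i)
    (ha : ∀ X i j, m X = some i → cs m A j X = d i j) {X Y : V} {i j : ι}
    (hX : m X = some i) (hY : m Y = some j) :
    (Q m * A * Q m) X Y = A X Y := by
  rw [QAQ_apply m hA, ind_sum hX]
  simp_rw [mul_comm _ (ind m _ Y)]
  rw [ind_sum hY, ind_sum hX, ha Y j i hY, ha X i j hX]
  have h5 : ∑ Z, ind m i Z * cs m A j Z = 4 * d i j := by
    rw [← h4 i, sum_mul]
    refine sum_congr rfl fun Z _ => ?_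
    by_cases h : m Z = some i
    · rw [ha Z i j h]
    · simp [ind, h]
  rw [h5, hd j i]
  simp only [sg, hX, hY, reduceCtorEq, if_false]
  ring

/-- the square of the switched matrix: rows outside the cells -/
lemma QBQ_row_n (m : V → Option ι) {B : Matrix V V ℚ} {X Y : V} (hX : m X = none)
    (hY : m Y = none) : (Q m * B * Q m) X Y = B X Y := by
  rw [mul_Q]
  simp_rw [mul_comm _ (ind m _ Y)]
  rw [ind_sum_none hY, Q_mul, ind_sum_none hX]
  simp [sg, hX, hY]

lemma QBQ_row_s (m : V → Option ι) {B : Matrix V V ℚ} {X Y : V} {j : ι} (hX : m X = none)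
    (hY : m Y = some j) :
    (Q m * B * Q m) X Y = (1 / 2) * (∑ Z, B X Z * ind m j Z) - B X Y := by
  have h1 : ∀ Z, (Q m * B) X Z = B X Z := by
    intro Z
    rw [Q_mul, ind_sum_none hX]
    simp [sg, hX]
  rw [mul_Q]
  simp_rw [h1, mul_comm _ (ind m _ Y)]
  rw [ind_sum hY]
  simp only [sg, hY, reduceCtorEq, if_false]
  ring

end Pool.Agent.V11322.EJ
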