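import Mathlib
import Pool.Agent.V11322.EJ.GM

set_option autoImplicit false

/-! The switched graph is cospectral. -/

namespace Pool.Agent.V11322.EJ

open Finset Matrix

variable {V ι : Type*} [Fintype V] [DecidableEq V] [Fintype ι] [DecidableEq ι]

/-- the switched graph -/
def swG (m : V → Option ι) (A : Matrix V V ℚ) (hA : ∀ X Y, A X Y = A Y X) : SimpleGraph V where
  Adj X Y := X ≠ Y ∧ (Q m * A * Q m) X Y = 1
  symm := ⟨fun X Y h => ⟨h.1.symm, by rw [QAQ_symm m hA]; exact h.2⟩⟩
  loopless := ⟨fun X h => h.1 rfl⟩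

open Classical in
lemma swG_adj (m : V → Option ι) {A : Matrix V V ℚ} (hA : ∀ X Y, A X Y = A Y X)
    (h4 : ∀ i, ∑ X, ind m i X = 4) (d : ι → ι → ℚ) (hd : ∀ i j, d i j = d j i)
    (ha : ∀ X i j, m X = some i → cs m A j X = d i j)
    (hb : ∀ X i, m X = none → cs m A i X = 0 ∨ cs m A i X = 2 ∨ cs m A i X = 4)
    (h01 : ∀ X Y, A X Y = 0 ∨ A X Y = 1) (hdiag : ∀ X, A X X = 0) :
    (swG m A hA).adjMatrix ℚ = Q m * A * Q m := by
  have hsn : ∀ X Y i, m X = some i → m Y = none →
      (Q m * A * Q m) X Y = 0 ∨ (Q m * A * Q m) X Y = 1 := by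
    intro X Y i hX hY
    rw [QAQ_sn m hA hX hY]
    have hnn : ∀ Z, 0 ≤ ind m i Z * A Z Y := by
      intro Z
      have h1 : 0 ≤ ind m i Z := by unfold ind; split_ifs <;> norm_num
      have h2 : 0 ≤ A Z Y := by rcases h01 Z Y with h | h <;> rw [h] <;> norm_num
      exact mul_nonneg h1 h2
    rcases hb Y i hY with h | h | h
    · left
      have h5 : ind m i X * A X Y ≤ cs m A i Y := by
        unfold cs
        exact single_le_sum (f := fun Z => ind m i Z * A Z Y) (fun Z _ => hnn Z) (mem_univ X)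
      have h6 : ind m i X = 1 := by simp [ind, hX]
      rw [h, h6, one_mul] at h5
      rcases h01 X Y with h7 | h7
      · rw [h, h7]
        norm_num
      · rw [h7] at h5
        norm_num at h5
    · rw [h]
      rcases h01 X Y with h7 | h7 <;> rw [h7]
      · right
        norm_num
      · left
        norm_num
    · right
      have h5 : ind m i X * (1 - A X Y) ≤ 4 - cs m A i Y := by
        unfold cs
        rw [← h4 i, ← sum_sub_distrib]
        have h8 : ∀ Z, ind m i Z - ind m i Z * A Z Y = ind m i Z * (1 - A Z Y) := fun Z => by ring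
        simp_rw [h8]
        refine single_le_sum (f := fun Z => ind m i Z * (1 - A Z Y)) (fun Z _ => ?_) (mem_univ X)
        have h1 : 0 ≤ ind m i Z := by unfold ind; split_ifs <;> norm_num
        have h2 : 0 ≤ 1 - A Z Y := by rcases h01 Z Y with h | h <;> rw [h] <;> norm_num
        exact mul_nonneg h1 h2
      have h6 : ind m i X = 1 := by simp [ind, hX]
      rw [h, h6, one_mul] at h5
      rcases h01 X Y with h7 | h7
      · rw [h7] at h5
        norm_num at h5
      · rw [h, h7]
        norm_num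
  have hall : ∀ X Y, (Q m * A * Q m) X Y = 0 ∨ (Q m * A * Q m) X Y = 1 := by
    intro X Y
    rcases hX : m X with _ | i <;> rcases hY : m Y with _ | j
    · rw [QAQ_nn m hA hX hY]
      exact h01 X Y
    · rw [QAQ_symm m hA]
      exact hsn Y X j hY hX
    · exact hsn X Y i hX hY
    · rw [QAQ_ss m h4 hA d hd ha hX hY]
      exact h01 X Y
  have hdg : ∀ X, (Q m * A * Q m) X X = 0 := by
    intro X
    rcases hX : m X with _ | i
    · rw [QAQ_nn m hA hX hX]
      exact hdiag X
    · rw [QAQ_ss m h4 hA d hd ha hX hX]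
      exact hdiag X
  ext X Y
  rw [SimpleGraph.adjMatrix_apply]
  by_cases h : X = Y
  · subst h
    rw [if_neg (fun h => h.1 rfl), hdg]
  · rcases hall X Y with h1 | h1
    · rw [if_neg (fun h2 => by have := h2.2; rw [h1] at this; norm_num at this), h1]
    · rw [if_pos ⟨h, h1⟩, h1]

lemma charpoly_QAQ (m : V → Option ι) (A : Matrix V V ℚ) (h4 : ∀ i, ∑ X, ind m i X = 4) :
    (Q m * A * Q m).charpoly = A.charpoly := by
  rw [Matrix.charpoly_mul_comm, ← Matrix.mul_assoc, Q_sq m h4, Matrix.one_mul]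

/-- the number of vertices whose number of common neighbours with `X` is `l` -/
noncomputable def cnum (B : Matrix V V ℚ) (X : V) (l : ℚ) : ℕ :=
  (univ.filter fun Y => (B * B) X Y = l).card

lemma cnum_equiv {A B : Matrix V V ℚ} (φ : V ≃ V) (h : ∀ X Y, A X Y = B (φ X) (φ Y)) (X : V)
    (l : ℚ) : cnum A X l = cnum B (φ X) l := by
  unfold cnum
  refine card_bij (fun Y _ => φ Y) ?_ (fun _ _ _ _ h => φ.injective h) ?_
  · intro Y hY
    rw [mem_filter] at hY ⊢
    refine ⟨mem_univ _, ?_⟩
    rw [← hY.2, Matrix.mul_apply, Matrix.mul_apply,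
      ← Equiv.sum_comp φ (fun Z => B (φ X) Z * B Z (φ Y))]
    exact sum_congr rfl fun Z _ => by rw [h X Z, h Z Y]
  · intro Y hY
    rw [mem_filter] at hY
    refine ⟨φ.symm Y, ?_, φ.apply_symm_apply Y⟩
    rw [mem_filter]
    refine ⟨mem_univ _, ?_⟩
    rw [← hY.2, Matrix.mul_apply, Matrix.mul_apply,
      ← Equiv.sum_comp φ (fun Z => B (φ X) Z * B Z Y)]
    exact sum_congr rfl fun Z _ => by rw [h X Z, h Z _, φ.apply_symm_apply]

lemma QAQ_sq (m : V → Option ι) (A : Matrix V V ℚ) (h4 : ∀ i, ∑ X, ind m i X = 4) :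
    (Q m * A * Q m) * (Q m * A * Q m) = Q m * (A * A) * Q m := by
  calc (Q m * A * Q m) * (Q m * A * Q m) = Q m * A * (Q m * Q m) * A * Q m := by
        simp only [Matrix.mul_assoc]
    _ = _ := by
      rw [Q_sq m h4, Matrix.mul_one]
      simp only [Matrix.mul_assoc]

/-- If no new value in the cells is `l`, and some old value is, then the count drops. -/
lemma cnum_lt (m : V → Option ι) (A : Matrix V V ℚ) (h4 : ∀ i, ∑ X, ind m i X = 4) {X Y0 : V}
    {l : ℚ} {i0 : ι} (hX : m X = none) (hY0 : m Y0 = some i0) (h0 : (A * A) X Y0 = l)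
    (hne : ∀ Y i, m Y = some i → (1 / 2) * (∑ Z, (A * A) X Z * ind m i Z) - (A * A) X Y ≠ l) :
    cnum (Q m * A * Q m) X l < cnum A X l := by
  unfold cnum
  refine card_lt_card ?_
  rw [QAQ_sq m A h4, ssubset_iff_of_subset]
  · refine ⟨Y0, ?_, ?_⟩
    · simp [h0]
    · rw [mem_filter]
      rintro ⟨-, h⟩
      rw [QBQ_row_s m hX hY0] at h
      exact hne Y0 i0 hY0 h
  · intro Y hY
    rw [mem_filter] at hY ⊢
    refine ⟨mem_univ _, ?_⟩
    rcases hm : m Y with _ | i
    · rw [← hY.2, QBQ_row_n m hX hm]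
    · have := hY.2
      rw [QBQ_row_s m hX hm] at this
      exact absurd this (hne Y i hm)

end Pool.Agent.V11322.EJ
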