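import Mathlib
import Pool.Agent.V11322.EJ.Sw
import Pool.Agent.V11322.EJ.Char

set_option autoImplicit false

/-! The even-intersection Johnson graph and its common neighbours. -/

namespace Pool.Agent.V11322.EJ

open Finset Matrix

/-- complement of a vertex -/
def cV {k : ℕ} (X : VV k) : VV k := ⟨X.1ᶜ, by
  have := X.2
  rw [card_compl, Fintype.card_fin, this]
  omega⟩

/-- even intersection -/
def ev {k : ℕ} (X Y : VV k) : ℚ := if Even (X.1 ∩ Y.1).card then 1 else 0

/-- parity of `k` -/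
def kap (k : ℕ) : ℚ := if Even k then 1 else 0

/-- adjacency matrix -/
def AA (k : ℕ) : Matrix (VV k) (VV k) ℚ := Matrix.of fun X Y =>
  if 2 ≤ (X.1 ∩ Y.1).card ∧ (X.1 ∩ Y.1).card ≤ k - 1 ∧ Even (X.1 ∩ Y.1).card then 1 else 0

lemma inter_card_lt {k : ℕ} {X Y : VV k} (h : X ≠ Y) : (X.1 ∩ Y.1).card < k := by
  by_contra hcon
  push Not at hcon
  apply h
  apply Subtype.ext
  have h1 : X.1 ∩ Y.1 = X.1 := eq_of_subset_of_card_le inter_subset_left (by rw [X.2]; exact hcon)
  have h2 : X.1 ∩ Y.1 = Y.1 := eq_of_subset_of_card_le inter_subset_right (by rw [Y.2]; exact hcon)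
  rw [← h1]
  exact h2

lemma inter_compl {k : ℕ} (X Y : VV k) : (X.1 ∩ (cV Y).1).card + (X.1 ∩ Y.1).card = k := by
  have h3 := card_inter_add_card_sdiff X.1 Y.1
  have h4 : X.1 ∩ (cV Y).1 = X.1 \ Y.1 := by
    ext v
    simp only [cV, mem_inter, mem_compl, mem_sdiff]
  have h5 := X.2
  rw [h4]
  omega

lemma inter_card_pos {k : ℕ} {X Y : VV k} (h : Y ≠ cV X) : 0 < (X.1 ∩ Y.1).card := by
  by_contra hcon
  have h1 := inter_compl Y X
  have h2 : (Y.1 ∩ (cV X).1).card < k := inter_card_lt h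
  rw [inter_comm Y.1 X.1] at h1
  omega

lemma cV_cV {k : ℕ} (X : VV k) : cV (cV X) = X := by
  apply Subtype.ext
  simp [cV]

lemma cV_ne {k : ℕ} (hk : 0 < k) (X : VV k) : X ≠ cV X := by
  intro h
  have h1 := inter_compl X X
  rw [← h, inter_self, X.2] at h1
  omega

lemma AA_eq {k : ℕ} (hk : 0 < k) (X Y : VV k) :
    AA k X Y = ev X Y - (if Y = cV X then 1 else 0) - kap k * (if X = Y then 1 else 0) := by
  unfold AA ev kap
  rw [Matrix.of_apply]
  by_cases h1 : X = Y
  · subst h1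
    rw [inter_self, X.2, if_neg (by omega), if_neg (cV_ne hk X), if_pos rfl]
    ring
  · rw [if_neg h1]
    by_cases h2 : Y = cV X
    · have h3 : (X.1 ∩ Y.1).card = 0 := by
        rw [h2]
        have := inter_compl X X
        rw [inter_self, X.2] at this
        omega
      rw [h3]
      simp [h2]
    · rw [if_neg h2]
      have h3 := inter_card_pos h2
      have h4 := inter_card_lt h1
      by_cases h5 : Even (X.1 ∩ Y.1).card
      · obtain ⟨r, hr⟩ := h5
        rw [if_pos (by refine ⟨by omega, by omega, ⟨r, hr⟩⟩), if_pos ⟨r, hr⟩]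
        ring
      · rw [if_neg (fun h => h5 h.2.2), if_neg h5]
        ring

lemma AA_symm {k : ℕ} (X Y : VV k) : AA k X Y = AA k Y X := by
  simp only [AA, Matrix.of_apply, inter_comm X.1 Y.1]

lemma ev_symm {k : ℕ} (X Y : VV k) : ev X Y = ev Y X := by
  simp only [ev, inter_comm X.1 Y.1]

lemma ev_chi {k : ℕ} (X Z : VV k) : ev X Z = (1 + chi X.1 Z) / 2 := by
  unfold ev
  rw [chi_eq]
  split_ifs with h
  · rw [h.neg_one_pow]
    norm_num
  · rw [(Nat.not_even_iff_odd.1 h).neg_one_pow]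
    norm_num

lemma hs_vert {k : ℕ} (X Y : VV k) : hs k X.1 = hs k Y.1 := hs_card (by rw [X.2, Y.2])

lemma EE {k : ℕ} (X Y : VV k) : ∑ Z, ev X Z * ev Z Y
    = (Fintype.card (VV k) + 2 * hs k X.1 + hs k (symmDiff X.1 Y.1)) / 4 := by
  have h1 : ∀ Z, ev X Z * ev Z Y
      = (1 + chi X.1 Z + chi Y.1 Z + chi (symmDiff X.1 Y.1) Z) / 4 := by
    intro Z
    rw [ev_symm Z Y, ev_chi, ev_chi, ← chi_mul]
    ring
  simp_rw [h1]
  rw [← sum_div, sum_add_distrib, sum_add_distrib, sum_add_distrib]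
  have h2 : ∑ Z : VV k, chi X.1 Z = hs k X.1 := rfl
  have h3 : ∑ Z : VV k, chi Y.1 Z = hs k X.1 := (hs_vert X Y).symm ▸ rfl
  have h4 : ∑ Z : VV k, chi (symmDiff X.1 Y.1) Z = hs k (symmDiff X.1 Y.1) := rfl
  rw [h2, h3, h4, sum_const, card_univ, nsmul_eq_mul, mul_one]
  ring

lemma AA_sq {k : ℕ} (hk : 0 < k) {X Y : VV k} (h1 : X ≠ Y) (h2 : Y ≠ cV X) :
    (AA k * AA k) X Y = (Fintype.card (VV k) + 2 * hs k X.1 + hs k (symmDiff X.1 Y.1)) / 4
      - ev X (cV Y) - ev (cV X) Y - 2 * kap k * ev X Y := by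
  have h2' : X ≠ cV Y := fun h => h2 (by rw [h, cV_cV])
  rw [Matrix.mul_apply, ← EE]
  have h3 : ∀ Z, AA k X Z * AA k Z Y = ev X Z * ev Z Y
      - (if Z = cV Y then ev X Z else 0)
      - (if Z = Y then kap k * ev X Z else 0)
      - (if Z = cV X then ev Z Y else 0)
      - (if Z = X then kap k * ev Z Y else 0) := by
    intro Z
    rw [AA_eq hk X Z, AA_eq hk Z Y]
    have e1 : (Y = cV Z) ↔ (Z = cV Y) := by
      constructor
      · intro h; rw [h, cV_cV]
      · intro h; rw [h, cV_cV]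
    have e2 : (X = Z) ↔ (Z = X) := eq_comm
    simp only [e1, e2]
    by_cases a1 : Z = cV Y
    · have a2 : Z ≠ Y := by rw [a1]; exact (cV_ne hk Y).symm
      have a3 : Z ≠ cV X := by
        rw [a1]
        intro h
        apply h1
        rw [← cV_cV X, ← h, cV_cV]
      have a4 : Z ≠ X := by rw [a1]; exact h2'.symm
      simp only [a1, if_true]
      rw [a1] at a2 a3 a4
      simp only [a2, a3, a4, if_false]
      ring
    · by_cases a2 : Z = Y
      · have a3 : Z ≠ cV X := by rw [a2]; exact h2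
        have a4 : Z ≠ X := by rw [a2]; exact h1.symm
        simp only [a2, if_true]
        rw [a2] at a1 a3 a4
        simp only [a1, a3, a4, if_false]
        ring
      · simp only [a1, a2, if_false]
        by_cases a3 : Z = cV X
        · have a4 : Z ≠ X := by rw [a3]; exact (cV_ne hk X).symm
          simp only [a3, if_true]
          rw [a3] at a4
          simp only [a4, if_false]
          ring
        · simp only [a3, if_false]
          by_cases a4 : Z = X
          · simp only [a4, if_true]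
            ring
          · simp only [a4, if_false]
            ring
  simp_rw [h3]
  rw [sum_sub_distrib, sum_sub_distrib, sum_sub_distrib, sum_sub_distrib,
    sum_ite_eq' univ (cV Y), sum_ite_eq' univ Y, sum_ite_eq' univ (cV X), sum_ite_eq' univ X]
  simp only [mem_univ, if_true]
  ring

lemma AA_perm {k : ℕ} (σ : Equiv.Perm (Fin (2 * k))) (X Y : VV k) :
    AA k X Y = AA k (pV σ X) (pV σ Y) := by
  have h : ((pV σ X).1 ∩ (pV σ Y).1).card = (X.1 ∩ Y.1).card := by
    change (X.1.map σ.toEmbedding ∩ Y.1.map σ.toEmbedding).card = _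
    rw [← map_inter, card_map]
  simp only [AA, Matrix.of_apply, h]

lemma AA_trans {k : ℕ} (X Y : VV k) (l : ℚ) : cnum (AA k) X l = cnum (AA k) Y l := by
  obtain ⟨σ, hσ⟩ := exists_perm (W := X.1) (W' := Y.1) (by rw [X.2, Y.2])
  have h : pV σ X = Y := Subtype.ext hσ
  rw [← h]
  exact cnum_equiv (pV σ) (AA_perm σ) X l

lemma symm_card {k : ℕ} (X Y : VV k) :
    (symmDiff X.1 Y.1).card + 2 * (X.1 ∩ Y.1).card = 2 * k := by
  have h1 := card_inter_add_card_sdiff X.1 Y.1
  have h2 := card_inter_add_card_sdiff Y.1 X.1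
  have h3 : (symmDiff X.1 Y.1).card = (X.1 \ Y.1).card + (Y.1 \ X.1).card := by
    rw [symmDiff_def]
    exact card_union_of_disjoint disjoint_sdiff_sdiff
  have h4 := X.2
  have h5 := Y.2
  rw [inter_comm Y.1 X.1] at h2
  omega

end Pool.Agent.V11322.EJ
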