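import Mathlib
import Pool.Agent.V11322.EJ.John

set_option autoImplicit false

/-! The two switching sets. -/

namespace Pool.Agent.V11322.EJ

open Finset Matrix

/-- The four pairs of letters. -/
def TT : Fin 4 → Finset (Fin 4) := ![{0, 1}, {0, 2}, {1, 3}, {2, 3}]

lemma TT_card : ∀ i, (TT i).card = 2 := by decide

/-- data for the switching sets -/
structure Dat (k : ℕ) where
  /-- the letters -/
  e : Fin 4 ↪ Fin (2 * k)
  /-- the common part -/
  S : Finset (Fin (2 * k))
  hS : S.card + 2 = k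
  he : ∀ l, e l ∉ S
  /-- a point of the common part -/
  s0 : Fin (2 * k)
  hs0 : s0 ∈ S
  /-- a point outside -/
  o : Fin (2 * k)
  ho : o ∉ S
  ho' : ∀ l, e l ≠ o

variable {k : ℕ} (D : Dat k)

/-- the first switching set -/
def AV (i : Fin 4) : VV k := ⟨D.S ∪ (TT i).map D.e, by
  rw [card_union_of_disjoint, card_map, TT_card]
  · exact D.hS
  · rw [disjoint_left]
    intro v hv hv'
    rw [mem_map] at hv'
    obtain ⟨l, _, rfl⟩ := hv'
    exact D.he l hv⟩

/-- the size of the intersection with the common part -/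
def xS (X : VV k) : ℕ := (X.1 ∩ D.S).card

/-- the letters in a set -/
def uS (X : VV k) : Finset (Fin 4) := univ.filter fun l => D.e l ∈ X.1

lemma inter_AV (X : VV k) (i : Fin 4) :
    (X.1 ∩ (AV D i).1).card = xS D X + (TT i ∩ uS D X).card := by
  have h1 : X.1 ∩ (AV D i).1 = (X.1 ∩ D.S) ∪ (TT i ∩ uS D X).map D.e := by
    ext v
    simp only [AV, uS, mem_inter, mem_union, mem_map, mem_filter, mem_univ, true_and]
    constructor
    · rintro ⟨hv, h | ⟨l, hl, rfl⟩⟩
      · exact Or.inl ⟨hv, h⟩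
      · exact Or.inr ⟨l, ⟨hl, hv⟩, rfl⟩
    · rintro (⟨hv, h⟩ | ⟨l, ⟨hl, hv⟩, rfl⟩)
      · exact ⟨hv, Or.inl h⟩
      · exact ⟨hv, Or.inr ⟨l, hl, rfl⟩⟩
  rw [h1, card_union_of_disjoint, card_map]
  · rfl
  · rw [disjoint_left]
    intro v hv hv'
    rw [mem_map] at hv'
    obtain ⟨l, _, rfl⟩ := hv'
    exact D.he l (mem_inter.1 hv).2

lemma xS_AV (i : Fin 4) : xS D (AV D i) + 2 = k := by
  have : (AV D i).1 ∩ D.S = D.S := by
    simp [AV]
  unfold xS
  rw [this, D.hS]

lemma uS_AV (i : Fin 4) : uS D (AV D i) = TT i := by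
  ext l
  simp only [uS, AV, mem_filter, mem_univ, true_and, mem_union, D.he l, false_or, mem_map]
  constructor
  · rintro ⟨l', hl', h⟩
    rwa [← D.e.injective h]
  · intro h
    exact ⟨l, h, rfl⟩

lemma inter_AA (i j : Fin 4) :
    ((AV D i).1 ∩ (AV D j).1).card + 2 = k + (TT j ∩ TT i).card := by
  rw [inter_AV, uS_AV]
  have := xS_AV D i
  omega

/-- both switching sets -/
def vert (b : Bool) (i : Fin 4) : VV k := if b then cV (AV D i) else AV D i

lemma AV_inj (i j : Fin 4) (h : AV D i = AV D j) : i = j := by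
  have h1 := inter_AA D i j
  rw [h, inter_self, (AV D j).2] at h1
  have h2 : ∀ i j : Fin 4, (TT j ∩ TT i).card = 2 → i = j := by decide
  exact h2 i j (by omega)

lemma AV_ne_cV (hk : 5 ≤ k) (i j : Fin 4) : AV D i ≠ cV (AV D j) := by
  intro h
  have h1 := inter_AA D i j
  have h2 := inter_compl (AV D i) (AV D j)
  rw [← h, inter_self, (AV D i).2] at h2
  omega

lemma vert_inj (b : Bool) (i j : Fin 4) (h : vert D b i = vert D b j) : i = j := by
  cases b
  · exact AV_inj D i j h
  · apply AV_inj D i j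
    have h1 : cV (AV D i) = cV (AV D j) := h
    rw [← cV_cV (AV D i), h1, cV_cV]

open Classical in
/-- the cells -/
noncomputable def mc (X : VV k) : Option Bool :=
  if ∃ i, AV D i = X then some false else if ∃ i, cV (AV D i) = X then some true else none

lemma mc_vert (hk : 5 ≤ k) (b : Bool) (i : Fin 4) : mc D (vert D b i) = some b := by
  unfold mc
  cases b
  · rw [if_pos ⟨i, rfl⟩]
  · rw [if_neg, if_pos ⟨i, rfl⟩]
    rintro ⟨j, hj⟩
    exact AV_ne_cV D hk j i hj

lemma mc_some {X : VV k} {b : Bool} (h : mc D X = some b) : ∃ i, vert D b i = X := by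
  unfold mc at h
  split_ifs at h with h1 h2
  · obtain ⟨i, hi⟩ := h1
    simp only [Option.some.injEq] at h
    subst h
    exact ⟨i, hi⟩
  · obtain ⟨i, hi⟩ := h2
    simp only [Option.some.injEq] at h
    subst h
    exact ⟨i, hi⟩

lemma mc_none {X : VV k} (h : mc D X = none) (i : Fin 4) : X ≠ AV D i ∧ X ≠ cV (AV D i) := by
  unfold mc at h
  split_ifs at h with h1 h2
  push Not at h1 h2
  exact ⟨(h1 i).symm, (h2 i).symm⟩

lemma mc_none' {X : VV k} (h : ∀ i, X ≠ AV D i ∧ X ≠ cV (AV D i)) : mc D X = none := by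
  unfold mc
  rw [if_neg, if_neg]
  · rintro ⟨i, hi⟩
    exact (h i).2 hi.symm
  · rintro ⟨i, hi⟩
    exact (h i).1 hi.symm

lemma cell_sum (hk : 5 ≤ k) (b : Bool) (f : VV k → ℚ) :
    ∑ X, ind (mc D) b X * f X = ∑ i, f (vert D b i) := by
  have h1 : ∀ X, ind (mc D) b X * f X = if mc D X = some b then f X else 0 := by
    intro X
    unfold ind
    split_ifs <;> simp
  simp_rw [h1]
  rw [← sum_filter]
  have h2 : (univ.filter fun X => mc D X = some b) = univ.image (vert D b) := by
    ext X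
    simp only [mem_filter, mem_univ, true_and, mem_image]
    constructor
    · exact mc_some D
    · rintro ⟨i, rfl⟩
      exact mc_vert D hk b i
  rw [h2, sum_image]
  exact fun i _ j _ h => vert_inj D b i j h

lemma cell_four (hk : 5 ≤ k) (b : Bool) : ∑ X, ind (mc D) b X = 4 := by
  have h := cell_sum D hk b (fun _ => 1)
  simp only [mul_one] at h
  rw [h]
  simp

lemma inter_vert_true (X : VV k) (i : Fin 4) :
    ((vert D true i).1 ∩ X.1).card + (X.1 ∩ (AV D i).1).card = k := by
  have h := inter_compl X (AV D i)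
  rw [inter_comm X.1 (cV (AV D i)).1] at h
  exact h

/-- the degrees between the cells -/
def dd (k : ℕ) (b b' : Bool) : ℚ := if b = b' then (if Even k then 1 else 2) else 1

lemma AA_val (hk : 5 ≤ k) (X Y : VV k) (t : ℕ) (ht : (X.1 ∩ Y.1).card + 2 = k + t)
    (ht2 : t ≤ 2) : AA k X Y = if (Even k ∧ t = 0) ∨ (¬ Even k ∧ t = 1) then 1 else 0 := by
  unfold AA
  rw [Matrix.of_apply]
  congr 1
  rw [eq_iff_iff]
  have h1 : (X.1 ∩ Y.1).card = k + t - 2 := by omega
  rw [h1]
  rcases (by omega : t = 0 ∨ t = 1 ∨ t = 2) with h | h | h <;> subst h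
  · constructor
    · rintro ⟨-, -, h3⟩
      left
      refine ⟨?_, rfl⟩
      rw [Nat.even_iff] at h3 ⊢
      omega
    · rintro (⟨h3, -⟩ | ⟨-, h3⟩)
      · refine ⟨by omega, by omega, ?_⟩
        rw [Nat.even_iff] at h3 ⊢
        omega
      · omega
  · constructor
    · rintro ⟨-, -, h3⟩
      right
      refine ⟨?_, rfl⟩
      rw [Nat.even_iff] at h3 ⊢
      omega
    · rintro (⟨-, h3⟩ | ⟨h3, -⟩)
      · omega
      · refine ⟨by omega, by omega, ?_⟩
        rw [Nat.even_iff] at h3 ⊢
        omega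
  · constructor
    · rintro ⟨-, h3, -⟩
      omega
    · rintro (⟨-, h3⟩ | ⟨-, h3⟩) <;> omega

lemma AA_val' (hk : 5 ≤ k) (X Y : VV k) (t : ℕ) (ht : (X.1 ∩ Y.1).card + t = 2) :
    AA k X Y = if t = 0 then 1 else 0 := by
  unfold AA
  rw [Matrix.of_apply]
  congr 1
  rw [eq_iff_iff]
  constructor
  · rintro ⟨h, -, -⟩
    omega
  · intro h
    have : (X.1 ∩ Y.1).card = 2 := by omega
    rw [this]
    exact ⟨le_rfl, by omega, by decide⟩

lemma inter_cV (X Y : VV k) : ((cV X).1 ∩ (cV Y).1).card = (X.1 ∩ Y.1).card := by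
  have h1 := inter_compl (cV X) Y
  have h2 := inter_compl Y X
  rw [inter_comm (cV X).1 Y.1, inter_comm Y.1 X.1] at *
  rw [inter_comm (cV X).1 (cV Y).1]
  rw [inter_comm (cV X).1 (cV Y).1] at h1
  have h3 : (Y.1 ∩ (cV X).1).card = ((cV X).1 ∩ Y.1).card := by rw [inter_comm]
  omega

lemma cell_deg (hk : 5 ≤ k) (X : VV k) (b b' : Bool) (h : mc D X = some b) :
    cs (mc D) (AA k) b' X = dd k b b' := by
  obtain ⟨j, rfl⟩ := mc_some D h
  unfold cs
  rw [cell_sum D hk b' (fun Z => AA k Z (vert D b j))]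
  have hT : ∀ i j : Fin 4, (TT j ∩ TT i).card ≤ 2 := by decide
  have h0 : ∀ j : Fin 4, ∑ i : Fin 4, (if (TT j ∩ TT i).card = 0 then (1 : ℚ) else 0) = 1 := by
    intro j
    have : ∀ j : Fin 4, (univ.filter fun i : Fin 4 => (TT j ∩ TT i).card = 0).card = 1 := by
      decide
    rw [sum_boole, this j]
    norm_num
  have h1 : ∀ j : Fin 4, ∑ i : Fin 4, (if (TT j ∩ TT i).card = 1 then (1 : ℚ) else 0) = 2 := by
    intro j
    have : ∀ j : Fin 4, (univ.filter fun i : Fin 4 => (TT j ∩ TT i).card = 1).card = 2 := by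
      decide
    rw [sum_boole, this j]
    norm_num
  have hsame : ∀ i : Fin 4, AA k (vert D b i) (vert D b j)
      = if (Even k ∧ (TT j ∩ TT i).card = 0) ∨ (¬ Even k ∧ (TT j ∩ TT i).card = 1)
        then 1 else 0 := by
    intro i
    apply AA_val hk _ _ _ _ (hT i j)
    cases b
    · exact inter_AA D i j
    · change ((cV (AV D i)).1 ∩ (cV (AV D j)).1).card + 2 = _
      rw [inter_cV]
      exact inter_AA D i j
  have hdiff : ∀ i : Fin 4, AA k (vert D (!b) i) (vert D b j)
      = if (TT j ∩ TT i).card = 0 then 1 else 0 := by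
    intro i
    apply AA_val' hk
    have h3 := inter_AA D i j
    cases b
    · change ((cV (AV D i)).1 ∩ (AV D j).1).card + _ = 2
      have h4 := inter_compl (AV D j) (AV D i)
      rw [inter_comm (AV D j).1 (AV D i).1, inter_comm (AV D j).1 (cV (AV D i)).1] at h4
      omega
    · change ((AV D i).1 ∩ (cV (AV D j)).1).card + _ = 2
      have h4 := inter_compl (AV D i) (AV D j)
      omega
  unfold dd
  by_cases hbb : b = b'
  · subst hbb
    rw [if_pos rfl]
    simp_rw [hsame]
    by_cases hev : Even k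
    · simp only [hev, true_and, not_true_eq_false, false_and, or_false, if_true]
      exact h0 j
    · simp only [hev, false_and, not_false_eq_true, true_and, false_or, if_false]
      exact h1 j
  · have hb' : b' = !b := by
      cases b <;> cases b' <;> simp_all
    subst hb'
    rw [if_neg hbb]
    simp_rw [hdiff]
    exact h0 j

/-- adjacency to the first switching set from outside -/
lemma AA_out {X Z : VV k} (h1 : Z ≠ X) (h2 : X ≠ cV Z) : AA k Z X = ev Z X := by
  unfold AA ev
  rw [Matrix.of_apply]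
  have h3 := inter_card_pos h2
  have h4 := inter_card_lt h1
  by_cases h5 : Even (Z.1 ∩ X.1).card
  · obtain ⟨r, hr⟩ := h5
    rw [if_pos (by refine ⟨by omega, by omega, ⟨r, hr⟩⟩), if_pos ⟨r, hr⟩]
  · rw [if_neg (fun h => h5 h.2.2), if_neg h5]

lemma TT_even : ∀ u : Finset (Fin 4),
    (univ.filter fun i : Fin 4 => Even (TT i ∩ u).card).card = 0 ∨
    (univ.filter fun i : Fin 4 => Even (TT i ∩ u).card).card = 2 ∨
    (univ.filter fun i : Fin 4 => Even (TT i ∩ u).card).card = 4 := by decide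

lemma TT_odd (u : Finset (Fin 4)) :
    (univ.filter fun i : Fin 4 => ¬ Even (TT i ∩ u).card).card = 0 ∨
    (univ.filter fun i : Fin 4 => ¬ Even (TT i ∩ u).card).card = 2 ∨
    (univ.filter fun i : Fin 4 => ¬ Even (TT i ∩ u).card).card = 4 := by
  have h1 := TT_even u
  have h2 := card_filter_add_card_filter_not (s := (univ : Finset (Fin 4)))
    (fun i : Fin 4 => Even (TT i ∩ u).card)
  rw [card_univ, Fintype.card_fin] at h2
  omega

lemma cell_out (hk : 5 ≤ k) (X : VV k) (b : Bool) (h : mc D X = none) :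
    cs (mc D) (AA k) b X = 0 ∨ cs (mc D) (AA k) b X = 2 ∨ cs (mc D) (AA k) b X = 4 := by
  unfold cs
  rw [cell_sum D hk b (fun Z => AA k Z X)]
  have hA : ∀ i, AA k (vert D b i) X = ev (vert D b i) X := by
    intro i
    have h1 := mc_none D h i
    apply AA_out
    · cases b
      · exact h1.1.symm
      · exact h1.2.symm
    · cases b
      · exact h1.2
      · change X ≠ cV (cV (AV D i))
        rw [cV_cV]
        exact h1.1
  simp_rw [hA]
  have hpar : ∀ (P : Prop) [Decidable P], (∀ i : Fin 4, Even ((vert D b i).1 ∩ X.1).card ↔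
      (P ↔ Even (TT i ∩ uS D X).card)) → (∑ i, ev (vert D b i) X = 0 ∨
        ∑ i, ev (vert D b i) X = 2 ∨ ∑ i, ev (vert D b i) X = 4) := by
    intro P _ hP
    have h3 : ∀ i, ev (vert D b i) X = if (P ↔ Even (TT i ∩ uS D X).card) then 1 else 0 := by
      intro i
      unfold ev
      exact if_congr (hP i) rfl rfl
    simp_rw [h3, sum_boole]
    by_cases hp : P
    · simp only [hp, true_iff]
      rcases TT_even (uS D X) with h4 | h4 | h4 <;> rw [h4] <;> norm_num
    · simp only [hp, false_iff]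
      rcases TT_odd (uS D X) with h4 | h4 | h4 <;> rw [h4] <;> norm_num
  cases b
  · apply hpar (Even (xS D X))
    intro i
    change Even ((AV D i).1 ∩ X.1).card ↔ _
    rw [inter_comm, inter_AV, Nat.even_add]
  · apply hpar (Even (k + xS D X))
    intro i
    have h5 := inter_vert_true D X i
    rw [inter_AV] at h5
    have h6 : Even k ↔ (Even ((vert D true i).1 ∩ X.1).card
        ↔ Even (xS D X + (TT i ∩ uS D X).card)) := by
      conv_lhs => rw [← h5]
      rw [Nat.even_add]
    rw [Nat.even_add] at h6 ⊢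
    tauto

/-- the test vertex -/
def YY : VV k := ⟨(D.S.erase D.s0 ∪ ({0, 1} : Finset (Fin 4)).map D.e) ∪ {D.o}, by
  have h1 : (D.S.erase D.s0 ∪ ({0, 1} : Finset (Fin 4)).map D.e).card = k - 1 := by
    rw [card_union_of_disjoint, card_map, card_erase_of_mem D.hs0]
    · have := D.hS
      have h3 : 0 < D.S.card := card_pos.2 ⟨_, D.hs0⟩
      have h2 : ({0, 1} : Finset (Fin 4)).card = 2 := by decide
      omega
    · rw [disjoint_left]
      intro v hv hv'
      rw [mem_map] at hv'
      obtain ⟨l, _, rfl⟩ := hv'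
      exact D.he l (mem_of_mem_erase hv)
  rw [card_union_of_disjoint, h1, card_singleton]
  · have := D.hS
    omega
  · rw [disjoint_singleton_right, mem_union, not_or]
    refine ⟨fun h => D.ho (mem_of_mem_erase h), ?_⟩
    rw [mem_map]
    rintro ⟨l, _, hl⟩
    exact D.ho' l hl⟩

lemma xS_YY : xS D (YY D) + 3 = k := by
  have h1 : (YY D).1 ∩ D.S = D.S.erase D.s0 := by
    ext v
    simp only [YY, mem_inter, mem_union, mem_map, mem_singleton, mem_erase]
    constructor
    · rintro ⟨(h | ⟨l, _, rfl⟩) | rfl, h2⟩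
      · exact h
      · exact absurd h2 (D.he l)
      · exact absurd h2 D.ho
    · intro h
      exact ⟨Or.inl (Or.inl h), h.2⟩
  unfold xS
  rw [h1, card_erase_of_mem D.hs0]
  have := D.hS
  have h3 : 0 < D.S.card := card_pos.2 ⟨_, D.hs0⟩
  omega

lemma uS_YY : uS D (YY D) = {0, 1} := by
  ext l
  simp only [uS, YY, mem_filter, mem_univ, true_and, mem_union, mem_map, mem_singleton,
    mem_erase, D.he l, and_false, false_or, D.ho' l, or_false]
  constructor
  · rintro ⟨l', hl', h⟩
    rwa [← D.e.injective h]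
  · intro h
    exact ⟨l, h, rfl⟩

/-- intersection numbers of the test vertex -/
def ci : Fin 4 → ℕ := ![2, 1, 1, 0]

lemma inter_YY (i : Fin 4) : ((YY D).1 ∩ (AV D i).1).card + 3 = k + ci i := by
  rw [inter_AV, uS_YY]
  have h1 := xS_YY D
  have h2 : ∀ i : Fin 4, (TT i ∩ {0, 1}).card = ci i := by decide
  rw [h2]
  omega

lemma ci_le : ∀ i, ci i ≤ 2 := by decide

lemma YY_ne (hk : 5 ≤ k) (i : Fin 4) : YY D ≠ AV D i ∧ YY D ≠ cV (AV D i) := by
  have h1 := inter_YY D i
  have h2 := ci_le i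
  constructor
  · intro h
    rw [h, inter_self, (AV D i).2] at h1
    omega
  · intro h
    have h3 := inter_compl (YY D) (AV D i)
    rw [← h, inter_self, (YY D).2] at h3
    omega

lemma mc_YY (hk : 5 ≤ k) : mc D (YY D) = none := mc_none' D (YY_ne D hk)

end Pool.Agent.V11322.EJ
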