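import Mathlib
import Pool.Agent.V11322.EJ.Cells

set_option autoImplicit false

/-! The count of vertices with a given number of common neighbours drops. -/

namespace Pool.Agent.V11322.EJ

open Finset Matrix

lemma exists_card {k : ℕ} {j : ℕ} (hj : j ≤ 2 * k) :
    ∃ W : Finset (Fin (2 * k)), W.card = j := by
  obtain ⟨W, _, hW⟩ := exists_subset_card_eq (s := (univ : Finset (Fin (2 * k)))) (n := j)
    (by rw [card_univ, Fintype.card_fin]; exact hj)
  exact ⟨W, hW⟩

lemma card_VV (k : ℕ) : Fintype.card (VV k) = k.centralBinom := by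
  rw [Nat.centralBinom, Fintype.card_finset_len, Fintype.card_fin]

lemma cb_odd {k : ℕ} (hk : 5 ≤ k) : 28 * (2 * k - 1) ≤ k.centralBinom := by
  induction k, hk using Nat.le_induction with
  | base => decide
  | succ n hn ih =>
    have h := Nat.succ_mul_centralBinom_succ n
    have h1 : 3 * n.centralBinom * (n + 1) ≤ (n + 1) * (n + 1).centralBinom := by
      rw [h]
      have : 0 < n.centralBinom := Nat.centralBinom_pos n
      nlinarith
    have h2 : 3 * n.centralBinom ≤ (n + 1).centralBinom := by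
      rw [mul_comm] at h1
      exact Nat.le_of_mul_le_mul_left h1 (by omega)
    omega

lemma cb_even {k : ℕ} (hk : 6 ≤ k) : 84 * (2 * k - 1) ≤ k.centralBinom := by
  induction k, hk using Nat.le_induction with
  | base => decide
  | succ n hn ih =>
    have h := Nat.succ_mul_centralBinom_succ n
    have h1 : 3 * n.centralBinom * (n + 1) ≤ (n + 1) * (n + 1).centralBinom := by
      rw [h]
      have : 0 < n.centralBinom := Nat.centralBinom_pos n
      nlinarith
    have h2 : 3 * n.centralBinom ≤ (n + 1).centralBinom := by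
      rw [mul_comm] at h1
      exact Nat.le_of_mul_le_mul_left h1 (by omega)
    omega

/-- The values of the character sums on sets of two, four and six points. -/
lemma hs_vals {k : ℕ} (hk : 5 ≤ k) : ∃ p q r : ℚ, 0 < r ∧ r ≤ q ∧ q ≤ 3 / 7 * p ∧ 28 ≤ p ∧
    (Even k → 84 ≤ p) ∧ ∀ W : Finset (Fin (2 * k)),
      (W.card = 2 → hs k W = -p) ∧ (W.card = 4 → hs k W = q) ∧ (W.card = 6 → hs k W = -r) := by
  obtain ⟨W2, hW2⟩ := exists_card (k := k) (j := 2) (by omega)
  obtain ⟨W4, hW4⟩ := exists_card (k := k) (j := 4) (by omega)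
  obtain ⟨W6, hW6⟩ := exists_card (k := k) (j := 6) (by omega)
  have r2 := rel2 (k := k) (W1 := ∅) (W2 := W2) (by rw [hW2, card_empty])
  have r4 := rel2 (k := k) (W1 := W2) (W2 := W4) (by rw [hW4, hW2])
  have r6 := rel2 (k := k) (W1 := W4) (W2 := W6) (by rw [hW6, hW4])
  rw [hs_empty, card_empty] at r2
  rw [hW2] at r4
  rw [hW4] at r6
  push_cast at r2 r4 r6
  have hkq : (5 : ℚ) ≤ k := by exact_mod_cast hk
  have hN1 : (28 : ℚ) * (2 * k - 1) ≤ Fintype.card (VV k) := by
    have h := cb_odd hk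
    rw [card_VV]
    have h2 : ((28 * (2 * k - 1) : ℕ) : ℚ) ≤ (k.centralBinom : ℚ) := by exact_mod_cast h
    rw [Nat.cast_mul, Nat.cast_sub (by omega)] at h2
    push_cast at h2
    exact h2
  have hN2 : Even k → (84 : ℚ) * (2 * k - 1) ≤ Fintype.card (VV k) := by
    intro hev
    have hk6 : 6 ≤ k := by
      rcases hev with ⟨t, ht⟩
      omega
    have h := cb_even hk6
    rw [card_VV]
    have h2 : ((84 * (2 * k - 1) : ℕ) : ℚ) ≤ (k.centralBinom : ℚ) := by exact_mod_cast h
    rw [Nat.cast_mul, Nat.cast_sub (by omega)] at h2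
    push_cast at h2
    exact h2
  have hp1 : 28 ≤ - hs k W2 := by
    by_contra hcon
    push Not at hcon
    nlinarith
  have hp2 : Even k → 84 ≤ - hs k W2 := by
    intro hev
    have := hN2 hev
    by_contra hcon
    push Not at hcon
    nlinarith
  have hq0 : 0 < hs k W4 := by
    by_contra hcon
    push Not at hcon
    nlinarith
  have hq1 : hs k W4 ≤ 3 / 7 * (- hs k W2) := by
    by_contra hcon
    push Not at hcon
    nlinarith
  have hr0 : 0 < - hs k W6 := by
    by_contra hcon
    push Not at hcon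
    nlinarith
  have hr1 : - hs k W6 ≤ hs k W4 := by
    by_contra hcon
    push Not at hcon
    nlinarith
  refine ⟨- hs k W2, hs k W4, - hs k W6, hr0, hr1, hq1, hp1, hp2, fun W => ⟨?_, ?_, ?_⟩⟩
  · intro h
    rw [neg_neg]
    exact hs_card (by rw [h, hW2])
  · intro h
    exact hs_card (by rw [h, hW4])
  · intro h
    rw [neg_neg]
    exact hs_card (by rw [h, hW6])

variable {k : ℕ} (D : Dat k)

lemma ev_even {X Y : VV k} (h : Even (X.1 ∩ Y.1).card) : ev X Y = 1 := if_pos h

lemma ev_odd {X Y : VV k} (h : ¬ Even (X.1 ∩ Y.1).card) : ev X Y = 0 := if_neg h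

/-- the values in the first cell -/
lemma val_false (hk : 5 ≤ k) (i : Fin 4) :
    (AA k * AA k) (YY D) (AV D i) = (Fintype.card (VV k) + 2 * hs k (YY D).1
      + hs k (symmDiff (YY D).1 (AV D i).1)) / 4
      - 2 * (if Even (k + ((YY D).1 ∩ (AV D i).1).card) then 1 else 0)
      - 2 * kap k * (if Even ((YY D).1 ∩ (AV D i).1).card then 1 else 0) := by
  have h1 := YY_ne D hk i
  have h2 : AV D i ≠ cV (YY D) := by
    intro h
    apply h1.2
    rw [h, cV_cV]
  rw [AA_sq (by omega) h1.1 h2]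
  have h3 := inter_compl (YY D) (AV D i)
  have h4 := inter_compl (AV D i) (YY D)
  rw [inter_comm (AV D i).1 (YY D).1, inter_comm (AV D i).1 (cV (YY D)).1] at h4
  have h5 : Even ((YY D).1 ∩ (cV (AV D i)).1).card ↔
      Even (k + ((YY D).1 ∩ (AV D i).1).card) := by
    rw [Nat.even_iff, Nat.even_iff]
    omega
  have h6 : Even ((cV (YY D)).1 ∩ (AV D i).1).card ↔
      Even (k + ((YY D).1 ∩ (AV D i).1).card) := by
    rw [Nat.even_iff, Nat.even_iff]
    omega
  unfold ev
  rw [if_congr h5 rfl rfl, if_congr h6 rfl rfl]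
  ring

/-- the values in the second cell -/
lemma val_true (hk : 5 ≤ k) (i : Fin 4) :
    (AA k * AA k) (YY D) (cV (AV D i)) = (Fintype.card (VV k) + 2 * hs k (YY D).1
      + (-1) ^ k * hs k (symmDiff (YY D).1 (AV D i).1)) / 4
      - 2 * (if Even ((YY D).1 ∩ (AV D i).1).card then 1 else 0)
      - 2 * kap k * (if Even (k + ((YY D).1 ∩ (AV D i).1).card) then 1 else 0) := by
  have h1 := YY_ne D hk i
  have h2 : cV (AV D i) ≠ cV (YY D) := by
    intro h
    apply h1.1
    rw [← cV_cV (YY D), ← h, cV_cV]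
  rw [AA_sq (by omega) h1.2 h2]
  have h3 := inter_compl (YY D) (AV D i)
  have h5 : Even ((YY D).1 ∩ (cV (AV D i)).1).card ↔
      Even (k + ((YY D).1 ∩ (AV D i).1).card) := by
    rw [Nat.even_iff, Nat.even_iff]
    omega
  have h7 : hs k (symmDiff (YY D).1 (cV (AV D i)).1)
      = (-1) ^ k * hs k (symmDiff (YY D).1 (AV D i).1) := by
    rw [← hs_compl]
    apply hs_card
    have h8 := symm_card (YY D) (cV (AV D i))
    have h9 := symm_card (YY D) (AV D i)
    rw [card_compl, Fintype.card_fin]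
    omega
  rw [h7, cV_cV]
  unfold ev
  rw [if_congr h5 rfl rfl]
  have h10 : ((cV (YY D)).1 ∩ (cV (AV D i)).1).card = ((YY D).1 ∩ (AV D i).1).card :=
    inter_cV _ _
  rw [h10]
  ring

/-- The key inequality. -/
lemma new_ne (hk : 5 ≤ k) (Y : VV k) (b : Bool) (h : mc D Y = some b) :
    (1 / 2) * (∑ Z, (AA k * AA k) (YY D) Z * ind (mc D) b Z) - (AA k * AA k) (YY D) Y
      ≠ (AA k * AA k) (YY D) (AV D 0) := by
  obtain ⟨p, q, r, hr, hrq, hqp, hp, hp', hv⟩ := hs_vals hk
  obtain ⟨j, rfl⟩ := mc_some D h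
  have h1 : ∑ Z, (AA k * AA k) (YY D) Z * ind (mc D) b Z
      = ∑ i, (AA k * AA k) (YY D) (vert D b i) := by
    rw [← cell_sum D hk b (fun Z => (AA k * AA k) (YY D) Z)]
    exact sum_congr rfl fun Z _ => mul_comm _ _
  rw [h1, Fin.sum_univ_four]
  have i0 := inter_YY D 0
  have i1 := inter_YY D 1
  have i2 := inter_YY D 2
  have i3 := inter_YY D 3
  simp only [ci, Matrix.cons_val_zero, Matrix.cons_val_one, Matrix.cons_val] at i0 i1 i2 i3
  have s0 := (hv (symmDiff (YY D).1 (AV D 0).1)).1 (by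
    have := symm_card (YY D) (AV D 0); omega)
  have s1 := (hv (symmDiff (YY D).1 (AV D 1).1)).2.1 (by
    have := symm_card (YY D) (AV D 1); omega)
  have s2 := (hv (symmDiff (YY D).1 (AV D 2).1)).2.1 (by
    have := symm_card (YY D) (AV D 2); omega)
  have s3 := (hv (symmDiff (YY D).1 (AV D 3).1)).2.2 (by
    have := symm_card (YY D) (AV D 3); omega)
  have f0 := val_false D hk 0
  have f1 := val_false D hk 1
  have f2 := val_false D hk 2
  have f3 := val_false D hk 3
  have t0 := val_true D hk 0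
  have t1 := val_true D hk 1
  have t2 := val_true D hk 2
  have t3 := val_true D hk 3
  rw [s0] at f0 t0
  rw [s1] at f1 t1
  rw [s2] at f2 t2
  rw [s3] at f3 t3
  set M : ℚ := Fintype.card (VV k) + 2 * hs k (YY D).1
  by_cases hev : Even k
  · have hk2 : kap k = 1 := if_pos hev
    have hpow : (-1 : ℚ) ^ k = 1 := hev.neg_one_pow
    have hp84 := hp' hev
    have hevm := Nat.even_iff.1 hev
    have a0 : ¬ Even ((YY D).1 ∩ (AV D 0).1).card := by rw [Nat.even_iff]; omega
    have a1 : Even ((YY D).1 ∩ (AV D 1).1).card := by rw [Nat.even_iff]; omega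
    have a2 : Even ((YY D).1 ∩ (AV D 2).1).card := by rw [Nat.even_iff]; omega
    have a3 : ¬ Even ((YY D).1 ∩ (AV D 3).1).card := by rw [Nat.even_iff]; omega
    have b0 : ¬ Even (k + ((YY D).1 ∩ (AV D 0).1).card) := by rw [Nat.even_iff]; omega
    have b1 : Even (k + ((YY D).1 ∩ (AV D 1).1).card) := by rw [Nat.even_iff]; omega
    have b2 : Even (k + ((YY D).1 ∩ (AV D 2).1).card) := by rw [Nat.even_iff]; omega
    have b3 : ¬ Even (k + ((YY D).1 ∩ (AV D 3).1).card) := by rw [Nat.even_iff]; omega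
    rw [if_neg a0, if_neg b0, hk2] at f0
    rw [if_neg a0, if_neg b0, hk2, hpow] at t0
    rw [if_pos a1, if_pos b1, hk2] at f1
    rw [if_pos a1, if_pos b1, hk2, hpow] at t1
    rw [if_pos a2, if_pos b2, hk2] at f2
    rw [if_pos a2, if_pos b2, hk2, hpow] at t2
    rw [if_neg a3, if_neg b3, hk2] at f3
    rw [if_neg a3, if_neg b3, hk2, hpow] at t3
    apply ne_of_gt
    cases b
    · change _ < (1 / 2) * ((AA k * AA k) (YY D) (AV D 0) + (AA k * AA k) (YY D) (AV D 1)
        + (AA k * AA k) (YY D) (AV D 2) + (AA k * AA k) (YY D) (AV D 3))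
        - (AA k * AA k) (YY D) (AV D j)
      fin_cases j
      · change _ < _ - (AA k * AA k) (YY D) (AV D 0)
        linarith
      · change _ < _ - (AA k * AA k) (YY D) (AV D 1)
        linarith
      · change _ < _ - (AA k * AA k) (YY D) (AV D 2)
        linarith
      · change _ < _ - (AA k * AA k) (YY D) (AV D 3)
        linarith
    · change _ < (1 / 2) * ((AA k * AA k) (YY D) (cV (AV D 0))
        + (AA k * AA k) (YY D) (cV (AV D 1))
        + (AA k * AA k) (YY D) (cV (AV D 2)) + (AA k * AA k) (YY D) (cV (AV D 3)))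
        - (AA k * AA k) (YY D) (cV (AV D j))
      fin_cases j
      · change _ < _ - (AA k * AA k) (YY D) (cV (AV D 0))
        linarith
      · change _ < _ - (AA k * AA k) (YY D) (cV (AV D 1))
        linarith
      · change _ < _ - (AA k * AA k) (YY D) (cV (AV D 2))
        linarith
      · change _ < _ - (AA k * AA k) (YY D) (cV (AV D 3))
        linarith
  · have hk2 : kap k = 0 := if_neg hev
    have hpow : (-1 : ℚ) ^ k = -1 := (Nat.not_even_iff_odd.1 hev).neg_one_pow
    have hevm := hev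
    rw [Nat.even_iff] at hevm
    have a0 : Even ((YY D).1 ∩ (AV D 0).1).card := by rw [Nat.even_iff]; omega
    have a1 : ¬ Even ((YY D).1 ∩ (AV D 1).1).card := by rw [Nat.even_iff]; omega
    have a2 : ¬ Even ((YY D).1 ∩ (AV D 2).1).card := by rw [Nat.even_iff]; omega
    have a3 : Even ((YY D).1 ∩ (AV D 3).1).card := by rw [Nat.even_iff]; omega
    have b0 : ¬ Even (k + ((YY D).1 ∩ (AV D 0).1).card) := by rw [Nat.even_iff]; omega
    have b1 : Even (k + ((YY D).1 ∩ (AV D 1).1).card) := by rw [Nat.even_iff]; omega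
    have b2 : Even (k + ((YY D).1 ∩ (AV D 2).1).card) := by rw [Nat.even_iff]; omega
    have b3 : ¬ Even (k + ((YY D).1 ∩ (AV D 3).1).card) := by rw [Nat.even_iff]; omega
    rw [if_pos a0, if_neg b0, hk2] at f0
    rw [if_pos a0, if_neg b0, hk2, hpow] at t0
    rw [if_neg a1, if_pos b1, hk2] at f1
    rw [if_neg a1, if_pos b1, hk2, hpow] at t1
    rw [if_neg a2, if_pos b2, hk2] at f2
    rw [if_neg a2, if_pos b2, hk2, hpow] at t2
    rw [if_pos a3, if_neg b3, hk2] at f3
    rw [if_pos a3, if_neg b3, hk2, hpow] at t3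
    apply ne_of_gt
    cases b
    · change _ < (1 / 2) * ((AA k * AA k) (YY D) (AV D 0) + (AA k * AA k) (YY D) (AV D 1)
        + (AA k * AA k) (YY D) (AV D 2) + (AA k * AA k) (YY D) (AV D 3))
        - (AA k * AA k) (YY D) (AV D j)
      fin_cases j
      · change _ < _ - (AA k * AA k) (YY D) (AV D 0)
        linarith
      · change _ < _ - (AA k * AA k) (YY D) (AV D 1)
        linarith
      · change _ < _ - (AA k * AA k) (YY D) (AV D 2)
        linarith
      · change _ < _ - (AA k * AA k) (YY D) (AV D 3)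
        linarith
    · change _ < (1 / 2) * ((AA k * AA k) (YY D) (cV (AV D 0))
        + (AA k * AA k) (YY D) (cV (AV D 1))
        + (AA k * AA k) (YY D) (cV (AV D 2)) + (AA k * AA k) (YY D) (cV (AV D 3)))
        - (AA k * AA k) (YY D) (cV (AV D j))
      fin_cases j
      · change _ < _ - (AA k * AA k) (YY D) (cV (AV D 0))
        linarith
      · change _ < _ - (AA k * AA k) (YY D) (cV (AV D 1))
        linarith
      · change _ < _ - (AA k * AA k) (YY D) (cV (AV D 2))
        linarith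
      · change _ < _ - (AA k * AA k) (YY D) (cV (AV D 3))
        linarith

lemma exists_Dat (hk : 5 ≤ k) : Nonempty (Dat k) := by
  classical
  let f : Fin 4 ↪ Fin (2 * k) := ⟨fun l => ⟨l.1, by have := l.2; omega⟩, fun a b h => by
    simp only [Fin.mk.injEq] at h
    exact Fin.ext h⟩
  let U : Finset (Fin (2 * k)) := (univ.map f)ᶜ
  have hU : U.card = 2 * k - 4 := by
    rw [card_compl, card_map, card_univ, Fintype.card_fin, Fintype.card_fin]
  obtain ⟨S, hSU, hS⟩ := exists_subset_card_eq (s := U) (n := k - 2) (by omega)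
  obtain ⟨s0, hs0⟩ : S.Nonempty := by rw [← card_pos]; omega
  obtain ⟨o, ho⟩ : (U \ S).Nonempty := by
    rw [← card_pos, card_sdiff_of_subset hSU]
    omega
  rw [mem_sdiff] at ho
  have hnot : ∀ l v, v ∈ U → f l ≠ v := by
    intro l v hv h
    rw [mem_compl] at hv
    apply hv
    rw [← h]
    exact mem_map_of_mem f (mem_univ l)
  exact ⟨⟨f, S, by omega, fun l h => hnot l _ (hSU h) rfl, s0, hs0, o, ho.2,
    fun l => hnot l o ho.1⟩⟩

lemma AA_01 (X Y : VV k) : AA k X Y = 0 ∨ AA k X Y = 1 := by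
  unfold AA
  rw [Matrix.of_apply]
  split_ifs
  · right; rfl
  · left; rfl

lemma AA_diag (hk : 0 < k) (X : VV k) : AA k X X = 0 := by
  unfold AA
  rw [Matrix.of_apply, inter_self, X.2, if_neg (by omega)]

lemma dd_symm (i j : Bool) : dd k i j = dd k j i := by
  unfold dd
  by_cases h : i = j
  · rw [h]
  · rw [if_neg h, if_neg (Ne.symm h)]

open Classical in
/-- The switched graph is cospectral to, and not isomorphic to, the graph. -/
theorem mate (hk : 5 ≤ k) (G : SimpleGraph (VV k)) (hG : G.adjMatrix ℚ = AA k) :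
    ∃ G' : SimpleGraph (VV k), (G'.adjMatrix ℚ).charpoly = (G.adjMatrix ℚ).charpoly ∧
      IsEmpty (G' ≃g G) := by
  obtain ⟨D⟩ := exists_Dat hk
  have h4 := cell_four D hk
  have hadj := swG_adj (mc D) (AA_symm (k := k)) h4 (dd k) dd_symm
    (fun X i j h => cell_deg D hk X i j h) (fun X i h => cell_out D hk X i h)
    AA_01 (AA_diag (by omega))
  refine ⟨swG (mc D) (AA k) AA_symm, ?_, ⟨fun φ => ?_⟩⟩
  · rw [hadj, hG]
    exact charpoly_QAQ _ _ h4
  · have h1 : ∀ X Y, (Q (mc D) * AA k * Q (mc D)) X Y = AA k (φ X) (φ Y) := by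
      intro X Y
      have hGa : AA k (φ X) (φ Y) = G.adjMatrix ℚ (φ X) (φ Y) := by rw [hG]
      rw [← hadj, hGa, SimpleGraph.adjMatrix_apply, SimpleGraph.adjMatrix_apply]
      exact if_congr φ.map_rel_iff.symm rfl rfl
    have h2 := cnum_equiv φ.toEquiv h1 (YY D) ((AA k * AA k) (YY D) (AV D 0))
    have h3 := cnum_lt (mc D) (AA k) h4 (mc_YY D hk) (Y0 := AV D 0) (i0 := false)
      (mc_vert D hk false 0) rfl (fun Y i h => new_ne D hk Y i h)
    rw [h2, AA_trans (φ.toEquiv (YY D)) (YY D)] at h3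
    exact lt_irrefl _ h3

end Pool.Agent.V11322.EJ
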